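import Mathlib

open Polynomial

namespace IS58

theorem iter_eval (p : ℂ[X]) (n : ℕ) :
    iteratedDeriv n (fun z => p.eval z) = fun z => (derivative^[n] p).eval z := by
  induction n with
  | zero => simp
  | succ n ih =>
    rw [iteratedDeriv_succ, ih, Function.iterate_succ_apply']
    funext z
    exact Polynomial.deriv _

/-- Cauchy estimate for the coefficients of a polynomial. -/
theorem cauchy (p : ℂ[X]) (R B : ℝ) (hR : 0 < R)
    (h : ∀ z : ℂ, ‖z‖ = R → ‖p.eval z‖ ≤ B) (m : ℕ) : ‖p.coeff m‖ ≤ B / R ^ m := by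
  have h1 := Complex.norm_iteratedDeriv_le_of_forall_mem_sphere_norm_le (c := 0) (R := R) (C := B)
    (f := fun z => p.eval z) m hR p.differentiable.diffContOnCl
    (fun z hz => h z (by simpa using hz))
  rw [iter_eval] at h1
  have h2 : (derivative^[m] p).eval 0 = (m.factorial : ℂ) * p.coeff m := by
    rw [← coeff_zero_eq_eval_zero, coeff_iterate_derivative]
    simp [Nat.descFactorial_self]
  simp only [h2, norm_mul, Complex.norm_natCast] at h1
  have h3 : (0 : ℝ) < m.factorial := by exact_mod_cast m.factorial_pos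
  rw [mul_div_assoc] at h1
  exact le_of_mul_le_mul_left h1 h3

/-- Lagrange interpolation bound for the coefficients. -/
theorem lagr (s : Finset ℕ) (v : ℕ → ℂ) (R d e : ℝ) (hR : 0 < R) (hd : 0 < d) (he : 0 ≤ e)
    (hv : ∀ i ∈ s, ‖v i‖ ≤ R) (hsep : ∀ i ∈ s, ∀ j ∈ s, i ≠ j → d ≤ ‖v i - v j‖)
    (p : ℂ[X]) (hp : p.degree < s.card) (hb : ∀ i ∈ s, ‖p.eval (v i)‖ ≤ e) (l : ℕ) :
    ‖p.coeff l‖ ≤ s.card * e * (2 * R / d) ^ (s.card - 1) / R ^ l := by
  apply cauchy p R _ hR
  intro z hz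
  have hinj : Set.InjOn v s := by
    intro i hi j hj hij
    by_contra hne
    have := hsep i hi j hj hne
    rw [hij, sub_self, norm_zero] at this
    linarith
  have hq : 0 ≤ 2 * R / d := by positivity
  have hbas : ∀ i ∈ s, ‖(Lagrange.basis s v i).eval z‖ ≤ (2 * R / d) ^ (s.card - 1) := by
    intro i hi
    rw [Lagrange.basis, eval_prod, norm_prod, ← Finset.card_erase_of_mem hi, ← Finset.prod_const]
    apply Finset.prod_le_prod (fun _ _ => norm_nonneg _)
    intro j hj
    have hj' := Finset.mem_erase.1 hj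
    have h1 := hsep i hi j hj'.2 (Ne.symm hj'.1)
    have h2 : ‖z - v j‖ ≤ 2 * R := by
      have := norm_sub_le z (v j)
      have := hv j hj'.2
      linarith
    rw [Lagrange.basisDivisor, eval_mul, eval_C, eval_sub, eval_X, eval_C, norm_mul, norm_inv,
      mul_comm, ← div_eq_mul_inv]
    exact div_le_div₀ (by positivity) h2 hd h1
  have h3 := Lagrange.eq_interpolate hinj hp
  rw [h3, Lagrange.interpolate_apply, eval_finsetSum]
  calc ‖∑ i ∈ s, eval z (C (eval (v i) p) * Lagrange.basis s v i)‖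
      ≤ ∑ i ∈ s, e * (2 * R / d) ^ (s.card - 1) := by
        apply norm_sum_le_of_le
        intro i hi
        rw [eval_mul, eval_C, norm_mul]
        exact mul_le_mul (hb i hi) (hbas i hi) (norm_nonneg _) he
    _ = s.card * e * (2 * R / d) ^ (s.card - 1) := by
        rw [Finset.sum_const, nsmul_eq_mul, mul_assoc]

/-- The roots used as nodes. -/
noncomputable def root (a : ℕ) (eta ph : ℝ) (q : ℕ) : ℂ :=
  (Real.exp (-eta / a) : ℂ) * Complex.exp (Complex.I * (((ph + 2 * Real.pi * q) / a : ℝ) : ℂ))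

theorem root_norm (a : ℕ) (eta ph : ℝ) (q : ℕ) : ‖root a eta ph q‖ = Real.exp (-eta / a) := by
  rw [root, norm_mul, Complex.norm_exp_I_mul_ofReal, mul_one, Complex.norm_real,
    Real.norm_of_nonneg (Real.exp_pos _).le]

theorem root_pow (a : ℕ) (ha : 0 < a) (eta ph : ℝ) (q : ℕ) :
    root a eta ph q ^ a = (Real.exp (-eta) : ℂ) * Complex.exp (ph * Complex.I) := by
  have ha' : (a : ℂ) ≠ 0 := by exact_mod_cast ha.ne'
  have ha'' : (a : ℝ) ≠ 0 := by exact_mod_cast ha.ne'
  rw [root, mul_pow, ← Complex.ofReal_pow, ← Real.exp_nat_mul, ← Complex.exp_nat_mul]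
  have h1 : (a : ℝ) * (-eta / a) = -eta := by field_simp
  have h2 : (a : ℂ) * (Complex.I * (((ph + 2 * Real.pi * q) / a : ℝ) : ℂ))
      = ph * Complex.I + (q : ℂ) * (2 * Real.pi * Complex.I) := by
    push_cast
    field_simp
  rw [h1, h2, Complex.exp_add, Complex.exp_nat_mul_two_pi_mul_I, mul_one]

theorem root_re (D : ℕ) (hD : 1 ≤ D) (eta ph : ℝ) (h1 : -Real.pi ≤ ph) (h2 : ph ≤ Real.pi) (q : ℕ)
    (hq1 : 24 * D ≤ q) (hq2 : q < 40 * D) : (root (64 * D) eta ph q).re ≤ 0 := by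
  have hD' : (1 : ℝ) ≤ D := by exact_mod_cast hD
  have hq1' : 24 * (D : ℝ) ≤ q := by exact_mod_cast hq1
  have hq2' : (q : ℝ) ≤ 40 * D := by exact_mod_cast hq2.le
  have hpi := Real.pi_pos
  rw [root, Complex.re_ofReal_mul, mul_comm Complex.I, Complex.exp_ofReal_mul_I_re]
  apply mul_nonpos_of_nonneg_of_nonpos (Real.exp_pos _).le
  apply Real.cos_nonpos_of_pi_div_two_le_of_le
  · rw [le_div_iff₀ (by positivity)]
    push_cast
    nlinarith
  · rw [div_le_iff₀ (by positivity)]
    push_cast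
    nlinarith

theorem root_sep (D : ℕ) (hD : 1 ≤ D) (eta ph : ℝ) (he : eta ≤ 1) (q r : ℕ)
    (hq1 : 24 * D ≤ q) (hq2 : q < 40 * D) (hr1 : 24 * D ≤ r) (hr2 : r < 40 * D) (hne : q ≠ r) :
    1 / (64 * (D : ℝ)) ≤ ‖root (64 * D) eta ph q - root (64 * D) eta ph r‖ := by
  have hD' : (1 : ℝ) ≤ D := by exact_mod_cast hD
  have hq1' : 24 * (D : ℝ) ≤ q := by exact_mod_cast hq1
  have hq2' : (q : ℝ) ≤ 40 * D := by exact_mod_cast hq2.le
  have hr1' : 24 * (D : ℝ) ≤ r := by exact_mod_cast hr1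
  have hr2' : (r : ℝ) ≤ 40 * D := by exact_mod_cast hr2.le
  have hpi := Real.pi_pos
  set x : ℝ := 2 * Real.pi * ((q : ℝ) - r) / (64 * D) with hx
  have h0 : root (64 * D) eta ph q - root (64 * D) eta ph r
      = root (64 * D) eta ph r * (Complex.exp (Complex.I * (x : ℂ)) - 1) := by
    have h00 : (ph + 2 * Real.pi * (q : ℝ)) / ((64 * D : ℕ) : ℝ)
        = (ph + 2 * Real.pi * (r : ℝ)) / ((64 * D : ℕ) : ℝ) + x := by
      rw [hx]
      push_cast
      ring
    rw [root, root, h00, Complex.ofReal_add, mul_add, Complex.exp_add]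
    ring
  have h1 : (1 : ℝ) ≤ |(q : ℝ) - r| := by
    have : (1 : ℤ) ≤ |(q : ℤ) - r| := Int.one_le_abs (by omega)
    exact_mod_cast this
  have h2 : |(q : ℝ) - r| ≤ 16 * D := abs_le.2 ⟨by linarith, by linarith⟩
  have h3 : |x / 2| = Real.pi * |(q : ℝ) - r| / (64 * D) := by
    have : x / 2 = Real.pi * ((q : ℝ) - r) / (64 * D) := by rw [hx]; ring
    rw [this, abs_div, abs_mul, abs_of_pos hpi, abs_of_pos (by positivity : (0 : ℝ) < 64 * D)]
  have h4 : |x / 2| ≤ Real.pi / 2 := by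
    rw [h3, div_le_iff₀ (by positivity)]
    nlinarith
  have h5 := Real.mul_abs_le_abs_sin h4
  have h6 : 2 / (64 * (D : ℝ)) ≤ 2 / Real.pi * |x / 2| := by
    rw [h3]
    have : 2 / Real.pi * (Real.pi * |(q : ℝ) - r| / (64 * D)) = 2 * |(q : ℝ) - r| / (64 * D) := by
      field_simp
    rw [this]
    apply div_le_div_of_nonneg_right _ (by positivity)
    linarith
  have h7 : (1 / 4 : ℝ) ≤ Real.exp (-eta / ((64 * D : ℕ) : ℝ)) := by
    have h8 := Real.add_one_le_exp (-eta / ((64 * D : ℕ) : ℝ))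
    have h9 : -(1 / 2 : ℝ) ≤ -eta / ((64 * D : ℕ) : ℝ) := by
      rw [le_div_iff₀ (by positivity)]
      push_cast
      nlinarith
    linarith
  rw [h0, norm_mul, root_norm, Complex.norm_exp_I_mul_ofReal_sub_one, Real.norm_eq_abs, abs_mul,
    abs_of_pos (by norm_num : (0 : ℝ) < 2)]
  have h10 : 1 / (64 * (D : ℝ)) = 1 / 4 * (2 * (2 / (64 * (D : ℝ)))) := by ring
  rw [h10]
  exact mul_le_mul h7 (by linarith) (by positivity) (Real.exp_pos _).le

theorem one_le_sub (w : ℂ) (hw : w.re ≤ 0) : 1 ≤ ‖1 - w‖ := by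
  have := Complex.re_le_norm (1 - w)
  simp only [Complex.sub_re, Complex.one_re] at this
  linarith

/-- The Lagrange and Cauchy steps of Lemma J. -/
theorem jcore0 (D : ℕ) (hD : 1 ≤ D) (t1 dd M e eta : ℝ) (ht : 0 < t1) (hdd : 0 ≤ dd)
    (htd : t1 * dd ≤ 1 / 2) (hM : 0 ≤ M) (h0 : 0 ≤ eta) (h1 : eta ≤ 1) (f : ℕ → ℂ[X])
    (hf : ∀ l, ∀ z : ℂ, ‖z‖ ≤ 1 → ‖(f l).eval z‖ ≤ M * dd ^ l)
    (hF : ∀ w : ℂ, ‖w‖ = Real.exp (-eta / (64 * D)) → w.re ≤ 0 →
      ‖∑' l, ((t1 : ℂ) * w / (1 - w)) ^ l * (f l).eval (w ^ (64 * D))‖ ≤ e)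
    (l m : ℕ) (hl : l < 16 * D) :
    ‖(f l).coeff m‖ ≤ 16 * D * (e + 2 * M * (t1 * dd) ^ (16 * D)) * (512 * D) ^ (16 * D) / t1 ^ l
      * Real.exp (eta * m) := by
  have hD' : (1 : ℝ) ≤ D := by exact_mod_cast hD
  have hcast : ((64 * D : ℕ) : ℝ) = 64 * D := by push_cast; ring
  have hpi := Real.pi_pos
  have he : 0 ≤ e := by
    have h2 := root_norm (64 * D) eta 0 (24 * D)
    rw [hcast] at h2
    exact (norm_nonneg _).trans
      (hF _ h2 (root_re D hD eta 0 (by linarith) (by linarith) _ le_rfl (by omega)))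
  have hx0 : 0 ≤ t1 * dd := by positivity
  set e' : ℝ := e + 2 * M * (t1 * dd) ^ (16 * D) with he'
  have he'0 : 0 ≤ e' := by positivity
  have hr : Real.exp (-eta / ((64 * D : ℕ) : ℝ)) ≤ 1 := by
    rw [Real.exp_le_one_iff]
    exact div_nonpos_of_nonpos_of_nonneg (by linarith) (by positivity)
  have key : ∀ z : ℂ, ‖z‖ = Real.exp (-eta) →
      ‖(f l).eval z‖ ≤ 16 * D * e' * (512 * D) ^ (16 * D) / t1 ^ l := by
    intro z hz
    have hz1 : ‖z‖ ≤ 1 := by rw [hz, Real.exp_le_one_iff]; linarith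
    have hzz : ∀ q, root (64 * D) eta z.arg q ^ (64 * D) = z := by
      intro q
      rw [root_pow _ (by omega), ← hz]
      exact Complex.norm_mul_exp_arg_mul_I z
    set v : ℕ → ℂ := fun q =>
      (t1 : ℂ) * root (64 * D) eta z.arg q / (1 - root (64 * D) eta z.arg q) with hv
    set P : ℂ[X] := ∑ i ∈ Finset.range (16 * D), monomial i ((f i).eval z) with hP
    have hcard : (Finset.Ico (24 * D) (40 * D)).card = 16 * D := by
      rw [Nat.card_Ico]; omega
    have hre : ∀ q ∈ Finset.Ico (24 * D) (40 * D), (root (64 * D) eta z.arg q).re ≤ 0 := by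
      intro q hq
      have hq' := Finset.mem_Ico.1 hq
      exact root_re D hD eta _ (Complex.neg_pi_lt_arg z).le (Complex.arg_le_pi z) q hq'.1 hq'.2
    have hvn : ∀ q ∈ Finset.Ico (24 * D) (40 * D), ‖v q‖ ≤ t1 := by
      intro q hq
      have h2 := one_le_sub _ (hre q hq)
      simp only [hv]
      rw [norm_div, norm_mul, root_norm, Complex.norm_real, Real.norm_of_nonneg ht.le,
        div_le_iff₀ (by linarith)]
      exact mul_le_mul_of_nonneg_left (by linarith) ht.le
    have hsep : ∀ q ∈ Finset.Ico (24 * D) (40 * D), ∀ r ∈ Finset.Ico (24 * D) (40 * D), q ≠ r →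
        t1 / (256 * D) ≤ ‖v q - v r‖ := by
      intro q hq r hr' hne
      have hq' := Finset.mem_Ico.1 hq
      have hr'' := Finset.mem_Ico.1 hr'
      have h2 := one_le_sub _ (hre q hq)
      have h3 := one_le_sub _ (hre r hr')
      have h4 := root_sep D hD eta z.arg h1 q r hq'.1 hq'.2 hr''.1 hr''.2 hne
      have h5 := root_norm (64 * D) eta z.arg q
      have h6 := root_norm (64 * D) eta z.arg r
      simp only [hv]
      generalize root (64 * D) eta z.arg q = x at *
      generalize root (64 * D) eta z.arg r = y at *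
      have hx : (1 - x) ≠ 0 := by
        intro h; rw [h, norm_zero] at h2; linarith
      have hy : (1 - y) ≠ 0 := by
        intro h; rw [h, norm_zero] at h3; linarith
      have h7 : (t1 : ℂ) * x / (1 - x) - t1 * y / (1 - y) = t1 * (x - y) / ((1 - x) * (1 - y)) := by
        field_simp
        ring
      have h8 : ‖1 - x‖ ≤ 2 := by
        have := norm_sub_le (1 : ℂ) x
        rw [norm_one] at this
        linarith
      have h9 : ‖1 - y‖ ≤ 2 := by
        have := norm_sub_le (1 : ℂ) y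
        rw [norm_one] at this
        linarith
      rw [h7, norm_div, norm_mul, norm_mul, Complex.norm_real, Real.norm_of_nonneg ht.le]
      have h10 : t1 / (256 * D) = t1 * (1 / (64 * (D : ℝ))) / (2 * 2) := by ring
      rw [h10]
      exact div_le_div₀ (by positivity) (mul_le_mul_of_nonneg_left h4 ht.le) (by positivity)
        (mul_le_mul h8 h9 (norm_nonneg _) (by norm_num))
    have hdeg : P.degree < (Finset.Ico (24 * D) (40 * D)).card := by
      rw [hcard, hP]
      apply lt_of_le_of_lt (degree_sum_le _ _)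
      rw [Finset.sup_lt_iff (WithBot.bot_lt_coe _)]
      intro i hi
      apply lt_of_le_of_lt (degree_monomial_le _ _)
      exact_mod_cast Finset.mem_range.1 hi
    have hb : ∀ q ∈ Finset.Ico (24 * D) (40 * D), ‖P.eval (v q)‖ ≤ e' := by
      intro q hq
      have h2 := root_norm (64 * D) eta z.arg q
      rw [hcast] at h2
      have h3 := hF _ h2 (hre q hq)
      rw [hzz q] at h3
      have h4 : ∀ i, ‖v q ^ i * (f i).eval z‖ ≤ M * (t1 * dd) ^ i := by
        intro i
        rw [norm_mul, norm_pow, mul_pow]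
        calc ‖v q‖ ^ i * ‖(f i).eval z‖ ≤ t1 ^ i * (M * dd ^ i) :=
              mul_le_mul (pow_le_pow_left₀ (norm_nonneg _) (hvn q hq) i) (hf i z hz1)
                (norm_nonneg _) (by positivity)
          _ = M * (t1 ^ i * dd ^ i) := by ring
      have h5 : Summable fun i => M * (t1 * dd) ^ i :=
        (summable_geometric_of_lt_one hx0 (by linarith)).mul_left M
      have h6 : Summable fun i => v q ^ i * (f i).eval z := Summable.of_norm_bounded h5 h4
      have h7 := h6.sum_add_tsum_nat_add (16 * D)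
      have h8 : P.eval (v q) = ∑ i ∈ Finset.range (16 * D), v q ^ i * (f i).eval z := by
        rw [hP, eval_finsetSum]
        apply Finset.sum_congr rfl
        intro i _
        rw [eval_monomial, mul_comm]
      have h9 : ‖∑' i, v q ^ (i + 16 * D) * (f (i + 16 * D)).eval z‖
          ≤ 2 * M * (t1 * dd) ^ (16 * D) := by
        apply tsum_of_norm_bounded
          (f := fun i => v q ^ (i + 16 * D) * (f (i + 16 * D)).eval z)
          (g := fun i => M * (t1 * dd) ^ (16 * D) * (1 / 2 : ℝ) ^ i)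
        · have := hasSum_geometric_two.mul_left (M * (t1 * dd) ^ (16 * D))
          have h11 : 2 * M * (t1 * dd) ^ (16 * D) = M * (t1 * dd) ^ (16 * D) * 2 := by ring
          rw [h11]
          exact this
        · intro i
          apply (h4 _).trans
          rw [pow_add, mul_comm ((t1 * dd) ^ i), ← mul_assoc]
          exact mul_le_mul_of_nonneg_left (pow_le_pow_left₀ hx0 htd i) (by positivity)
      have h10 : P.eval (v q) = (∑' i, v q ^ i * (f i).eval z)
          - ∑' i, v q ^ (i + 16 * D) * (f (i + 16 * D)).eval z := by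
        rw [h8, ← h7]; ring
      rw [h10]
      exact (norm_sub_le _ _).trans (add_le_add h3 h9)
    have h2 := lagr _ v t1 (t1 / (256 * D)) e' ht (by positivity) he'0 hvn hsep P hdeg hb l
    have h3 : P.coeff l = (f l).eval z := by
      rw [hP, finsetSum_coeff]
      simp only [coeff_monomial]
      rw [Finset.sum_ite_eq' , if_pos (Finset.mem_range.2 hl)]
    have h4 : 2 * t1 / (t1 / (256 * D)) = 512 * D := by
      field_simp
      ring
    rw [h3, hcard, h4] at h2
    apply h2.trans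
    apply div_le_div_of_nonneg_right _ (by positivity)
    push_cast
    apply mul_le_mul_of_nonneg_left _ (by positivity)
    exact pow_le_pow_right₀ (by linarith) (by omega)
  have h2 := cauchy (f l) _ _ (Real.exp_pos (-eta)) key m
  rw [← Real.exp_nat_mul, div_eq_mul_inv _ (Real.exp _), ← Real.exp_neg] at h2
  convert h2 using 3
  ring

theorem jcore (D : ℕ) (hD : 1 ≤ D) (t1 dd M e eta : ℝ) (ht : 0 < t1) (hdd : 0 ≤ dd)
    (htd : t1 * dd ≤ 1 / 2) (hM : 0 ≤ M) (h0 : 0 < eta) (h1 : eta ≤ 1) (f : ℕ → ℂ[X])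
    (hf : ∀ l, ∀ z : ℂ, ‖z‖ ≤ 1 → ‖(f l).eval z‖ ≤ M * dd ^ l)
    (hF : ∀ w : ℂ, ‖w‖ = Real.exp (-eta / (64 * D)) → w.re ≤ 0 →
      ‖∑' l, ((t1 : ℂ) * w / (1 - w)) ^ l * (f l).eval (w ^ (64 * D))‖ ≤ e)
    (l m : ℕ) (hl : l < 16 * D) :
    ‖(f l).coeff m‖ ≤ 16 * D * (e + 2 * M * (t1 * dd) ^ (16 * D)) * (512 * D) ^ (16 * D) / t1 ^ l
      * Real.exp (eta * m) :=
  jcore0 D hD t1 dd M e eta ht hdd htd hM h0.le h1 f hf hF l m hl

end IS58
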